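import Pool.Agent.K6.H81.KS.Red
import Pool.Agent.K6.H81.KS.CNT
import Pool.Agent.K6.H81.KS.ARI
import Pool.Agent.K6.H81.KS.GAL
import Pool.Agent.K6.H81.KS.COL
import Pool.Agent.K6.H81.KS.CUT
import Pool.Agent.K6.H81.KS.GLU

/-!
# Unions of degenerate graphs: reduction to 3-connected graphs, and graphs of small order

`G` is `(m_1,...,m_s)`-composed (`Composed m G`) if it is the union of graphs `H_i` on the vertex set
of `G`, where `H_i` is `m_i`-degenerate. Put `M = ∑ m_i`, `S = ∑_{i<j} m_i m_j`,
`t = ⌊(1 + √(1 + 8 S)) / 2⌋` (`tt m`) and `v = M + t` (`ks m`). The conjecture of Klein and Schoenheim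
says that every composed graph is `v`-colourable.

Theorem. Let `k ≥ v`. Every composed graph `G` which is not `k`-colourable reduces (`Reds`) to a
composed graph `G'[T]` which is not `k`-colourable, has more than `3 k - 2 M` vertices, minimum degree
at least `k`, and is not separated by any set of at most two vertices and not by any clique; in
particular it is 3-connected. A reduction step leads to an induced subgraph, or, for a separation
`(A, B)` with `A ∩ B = {a, b}`, `a` and `b` not adjacent, to `G[A] + ab` or to `G[A] / ab`.

In particular (as `T` is a set of vertices of `G`), for every `k ≥ v`, every composed graph with at most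
`3 k - 2 M` vertices is `k`-colourable: the chromatic number of a composed graph with `n` vertices is at
most `max (v, ⌈(n + 2 M) / 3⌉)`. This is the conjecture for `n ≤ 3 v - 2 M = v + 2 t`, and if `v < 2 M`
it is better than the general bound `2 M` for all `n ≤ 4 M - 3`.

Method. A composed graph on `n ≥ v` vertices has at least `((n - M) (n - M - 1) - 2 S) / 2` non-edges.
By the Tutte-Berge formula a graph with maximum degree and matching number at most `p` has at most
`p (p + 1)` edges. For `n = k + 1 + p ≤ 3 k - 2 M` and minimum degree at least `k` this gives a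
matching of `p + 1` non-edges, so `n - (p + 1) = k` colours. Separations: if `D` is `m`-degenerate,
`A ∩ B = {a, b}` and `a`, `b` are not adjacent, then `D[A] + ab` or `D[B] / ab` is `m`-degenerate. So
for a composed graph `G`, `G[A] + ab` or `G[B] / ab` is composed, and in the same way `G[B] + ab` or
`G[A] / ab`; if all of these which are composed are `k`-colourable, and `G[A]`, `G[B]` are, then `G` is.
-/

set_option autoImplicit false

namespace Pool.Agent.Results.MP_c25521_co.SmallPieces

open Finset Pool.Agent.K6.H81.KS

/-- Every composed graph which is not `k`-colourable, `k ≥ v`, reduces to one which has more than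
`3k - 2M` vertices, minimum degree at least `k`, is 3-connected and has no separating clique. -/
theorem result : ∀ {s : ℕ} (m : Fin s → ℕ) (k : ℕ), ks m ≤ k →
    ∀ (V : Type) [Fintype V] [DecidableEq V] (G : SimpleGraph V), Composed m G → ¬ G.Colorable k →
    ∃ (G' : SimpleGraph V) (T : Finset V), Reds G univ G' T ∧ Composed m G' ∧
      ¬ (G'.induce (T : Set V)).Colorable k ∧
      3 * k < T.card + 2 * ∑ i, m i ∧ (∀ x ∈ T, k ≤ dg G' T x) ∧
      ∀ X : Finset V, X ⊆ T → (X.card ≤ 2 ∨ ∀ x ∈ X, ∀ y ∈ X, x ≠ y → G'.Adj x y) →
        (G'.induce {x | x ∈ T ∧ x ∉ X}).Preconnected := by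
  intro s m k hk V _ _ G hG hnot
  obtain ⟨G', T, h1, h2, h3, h4, h5, h6⟩ := reds CNT ARI GAL COL CUT GLU m k hk
    (univ : Finset V).card G univ rfl hG (fun h => hnot (col_univ h))
  exact ⟨G', T, h1, h2, fun h => h3 (col_of_colorable h), h4, h5, h6⟩

end Pool.Agent.Results.MP_c25521_co.SmallPieces
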